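import Pool.Agent.Helper69.SW.St
import Pool.Agent.Helper65.CB.M_Avg

/-!
# Project SW (MP_65faa7), module Tr7: the truncated series is bounded independently of the truncation
-/

set_option autoImplicit false

open scoped BigOperators ENNReal Topology
open Pool.LE Pool.NL Pool.CL Pool.CB Filter

namespace Pool.SW

namespace Tr7M

/-- the choice of `e` -/
theorem exists_e (θ θ' : ℝ) (h : θ < θ') : ∃ e : ℝ, 0 < e ∧ (1 + 2 * e) ^ 4 * θ < θ' := by
  have hc : Tendsto (fun e : ℝ => (1 + 2 * e) ^ 4 * θ) (𝓝 0) (𝓝 ((1 + 2 * 0) ^ 4 * θ)) := by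
    apply Continuous.tendsto
    fun_prop
  have h1 : ∀ᶠ e in 𝓝[>] (0 : ℝ), (1 + 2 * e) ^ 4 * θ < θ' :=
    (hc.mono_left nhdsWithin_le_nhds).eventually_lt_const (by simpa using h)
  obtain ⟨e, he, hpos⟩ := (h1.and self_mem_nhdsWithin).exists
  exact ⟨e, hpos, he⟩

theorem sB_nonneg {d : ℕ} (n : ℕ) (x : Zd d) : 0 ≤ sB n x := by
  unfold sB ind
  split_ifs <;> norm_num

/-- the averaged bound for one coefficient -/
theorem co_le (hCoS : StCoS) (hAvg : StAvg) (d M n N r : ℕ) (V c η e : ℝ) (x : Zd d)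
    (hd : 1 ≤ d) (hn : 1 ≤ n) (hV : 0 < V) (hc : 0 < c) (hη : 0 ≤ η) (he : 0 < e)
    (h1 : (1 + e) * (n : ℝ) ≤ N) (h2 : (N : ℝ) ≤ (1 + 2 * e) * n)
    (hco : ∀ y : Zd d, 0 ≤ co (TS (Lam d N M) N c) V (fun y => sB N y + η) r y)
    (hx : x ∈ Lam d n M) :
    co (TS (Lam d n M) n c) V (fun y => sB n y + η) r x ≤
      (1 + 2 * e) ^ (2 + 4 * r) * (((1 + 2 * e) / e) ^ d *
        ((∑ y ∈ Lam d N M, co (TS (Lam d N M) N c) V (fun y => sB N y + η) r y) / (N : ℝ) ^ d)) := by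
  have hn0 : (0 : ℝ) < n := by exact_mod_cast hn
  have hen : 0 < e * (n : ℝ) := mul_pos he hn0
  have hnN : (n : ℝ) < N := by nlinarith
  have hnN' : n < N := by exact_mod_cast hnN
  have hN0 : (0 : ℝ) < N := lt_trans hn0 hnN
  obtain ⟨a, ha, hfa⟩ := hAvg d n N M (co (TS (Lam d N M) N c) V (fun y => sB N y + η) r)
    (fun _ => 0) x hd hn hnN' hx
  have hcs := hCoS d n N M r c V η a x hd hn hnN'.le hc hV hη ha
  have hsum : (∑ y ∈ Lam d N M, |co (TS (Lam d N M) N c) V (fun y => sB N y + η) r y - 0|) =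
      ∑ y ∈ Lam d N M, co (TS (Lam d N M) N c) V (fun y => sB N y + η) r y := by
    refine Finset.sum_congr rfl fun y _ => ?_
    rw [sub_zero, abs_of_nonneg (hco y)]
  rw [hsum, zero_add] at hfa
  set S := ∑ y ∈ Lam d N M, co (TS (Lam d N M) N c) V (fun y => sB N y + η) r y with hS
  have hS0 : 0 ≤ S := Finset.sum_nonneg fun y _ => hco y
  have hq : (N : ℝ) / n ≤ 1 + 2 * e := by
    rw [div_le_iff₀ hn0]
    exact h2
  have hb : S / ((N : ℝ) - n) ^ d ≤ ((1 + 2 * e) / e) ^ d * (S / (N : ℝ) ^ d) := by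
    have hNn : 0 < (N : ℝ) - n := by linarith
    have h3 : (N : ℝ) / ((N : ℝ) - n) ≤ (1 + 2 * e) / e := by
      rw [div_le_div_iff₀ hNn he]
      nlinarith
    have h4 : S / ((N : ℝ) - n) ^ d = ((N : ℝ) / ((N : ℝ) - n)) ^ d * (S / (N : ℝ) ^ d) := by
      rw [div_pow]
      have : (N : ℝ) ^ d ≠ 0 := pow_ne_zero _ hN0.ne'
      have : ((N : ℝ) - n) ^ d ≠ 0 := pow_ne_zero _ hNn.ne'
      field_simp
    rw [h4]
    refine mul_le_mul_of_nonneg_right ?_ (div_nonneg hS0 (pow_nonneg hN0.le _))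
    exact pow_le_pow_left₀ (div_nonneg hN0.le hNn.le) h3 d
  calc co (TS (Lam d n M) n c) V (fun y => sB n y + η) r x
      ≤ ((N : ℝ) / n) ^ (2 + 4 * r) *
        co (TS (Lam d N M) N c) V (fun y => sB N y + η) r (x + a) := hcs
    _ ≤ ((N : ℝ) / n) ^ (2 + 4 * r) * (S / ((N : ℝ) - n) ^ d) :=
        mul_le_mul_of_nonneg_left hfa (pow_nonneg (div_nonneg hN0.le hn0.le) _)
    _ ≤ ((N : ℝ) / n) ^ (2 + 4 * r) * (((1 + 2 * e) / e) ^ d * (S / (N : ℝ) ^ d)) :=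
        mul_le_mul_of_nonneg_left hb (pow_nonneg (div_nonneg hN0.le hn0.le) _)
    _ ≤ (1 + 2 * e) ^ (2 + 4 * r) * (((1 + 2 * e) / e) ^ d * (S / (N : ℝ) ^ d)) := by
        refine mul_le_mul_of_nonneg_right ?_ ?_
        · exact pow_le_pow_left₀ (div_nonneg hN0.le hn0.le) hq _
        · refine mul_nonneg (pow_nonneg (div_nonneg (by linarith) he.le) _) ?_
          exact div_nonneg hS0 (pow_nonneg hN0.le _)

end Tr7M

open Tr7M in
theorem hTr7 (hCoS : StCoS) (hUp : StUp) (hRR : StRR) : StTr7 := by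
  intro d M V c η θ θ' cl hd hM hV hc hη hη1 hθ hθ' hcl hsum
  obtain ⟨e, he, hee⟩ := exists_e θ θ' hθ'
  have hd1 : 1 ≤ d := by omega
  have hθ'0 : 0 < θ' := hθ.trans hθ'
  have hco : ∀ n, 1 ≤ n → ∀ r (x : Zd d),
      0 ≤ co (TS (Lam d n M) n c) V (fun y => sB n y + η) r x := fun n hn r x =>
    ((hUp d n (Lam d n M) c V 1 (fun y => sB n y + η) hd1 hn hc hV zero_le_one
      (fun y => add_nonneg (sB_nonneg n y) hη.le)).1 r x).1
  set S : ℕ → ℕ → ℝ := fun n r => (∑ x ∈ Lam d n M,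
    co (TS (Lam d n M) n c) V (fun y => sB n y + η) r x) / (n : ℝ) ^ d with hSdef
  have hS0 : ∀ n, 1 ≤ n → ∀ r, 0 ≤ S n r := fun n hn r =>
    div_nonneg (Finset.sum_nonneg fun x _ => hco n hn r x) (by positivity)
  have hcl0 : ∀ r, 0 ≤ cl r := fun r =>
    ge_of_tendsto (hcl r) (eventually_atTop.2 ⟨1, fun n hn => hS0 n hn r⟩)
  set C : ℝ := (1 + 2 * e) ^ 2 * ((1 + 2 * e) / e) ^ d with hC
  have hC0 : 0 ≤ C := by positivity
  refine ⟨max 1 (C * (∑' r, cl r * θ' ^ r + 1)), le_max_left _ _, ?_⟩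
  intro r₀
  have ht : Tendsto (fun N : ℕ => ∑ r ∈ Finset.range r₀, S N r * θ' ^ r) atTop
      (𝓝 (∑ r ∈ Finset.range r₀, cl r * θ' ^ r)) :=
    tendsto_finsetSum _ (fun r _ => (hcl r).mul_const _)
  have hle : ∑ r ∈ Finset.range r₀, cl r * θ' ^ r < ∑' r, cl r * θ' ^ r + 1 := by
    have := hsum.sum_le_tsum (Finset.range r₀)
      (fun r _ => mul_nonneg (hcl0 r) (pow_nonneg hθ'0.le _))
    linarith
  obtain ⟨N₀, hN₀⟩ := eventually_atTop.1 (ht.eventually_lt_const hle)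
  obtain ⟨n₁, hn₁⟩ := exists_nat_gt (1 / e)
  refine ⟨max (max 1 N₀) n₁, le_trans (le_max_left _ _) (le_max_left _ _), ?_⟩
  intro n hn x hx
  have hn1 : 1 ≤ n := le_trans (le_trans (le_max_left _ _) (le_max_left _ _)) hn
  have hnN0 : N₀ ≤ n := le_trans (le_trans (le_max_right _ _) (le_max_left _ _)) hn
  have hnn1 : n₁ ≤ n := le_trans (le_max_right _ _) hn
  have hn0 : (0 : ℝ) < n := by exact_mod_cast hn1
  have hen : 1 ≤ e * (n : ℝ) := by
    have h1 : (1 / e) < (n : ℝ) := lt_of_lt_of_le hn₁ (by exact_mod_cast hnn1)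
    rw [div_lt_iff₀ he] at h1
    linarith
  set N : ℕ := ⌈(1 + e) * (n : ℝ)⌉₊ with hN
  have h1 : (1 + e) * (n : ℝ) ≤ N := Nat.le_ceil _
  have h2 : (N : ℝ) ≤ (1 + 2 * e) * n := by
    have := Nat.ceil_lt_add_one (a := (1 + e) * (n : ℝ)) (by positivity)
    rw [← hN] at this
    nlinarith
  have hnN : (n : ℝ) < N := by nlinarith
  have hnN' : n < N := by exact_mod_cast hnN
  have hN1 : 1 ≤ N := by omega
  have hav := hAvg hRR
  refine le_trans ?_ (le_max_right _ _)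
  have hstep : Fp (TS (Lam d n M) n c) V (fun y => sB n y + η) r₀ θ x ≤
      C * ∑ r ∈ Finset.range r₀, S N r * θ' ^ r := by
    unfold Fp
    rw [Finset.mul_sum]
    refine Finset.sum_le_sum fun r _ => ?_
    have hb := co_le hCoS hav d M n N r V c η e x hd1 hn1 hV hc hη.le he h1 h2
      (fun y => hco N hN1 r y) hx
    have hSr : (∑ y ∈ Lam d N M, co (TS (Lam d N M) N c) V (fun y => sB N y + η) r y) /
        (N : ℝ) ^ d = S N r := rfl
    rw [hSr] at hb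
    calc co (TS (Lam d n M) n c) V (fun y => sB n y + η) r x * θ ^ r
        ≤ ((1 + 2 * e) ^ (2 + 4 * r) * (((1 + 2 * e) / e) ^ d * S N r)) * θ ^ r :=
          mul_le_mul_of_nonneg_right hb (pow_nonneg hθ.le _)
      _ = C * S N r * ((1 + 2 * e) ^ 4 * θ) ^ r := by
          rw [hC, pow_add, pow_mul, mul_pow]
          ring
      _ ≤ C * S N r * θ' ^ r :=
          mul_le_mul_of_nonneg_left
            (pow_le_pow_left₀ (mul_nonneg (by positivity) hθ.le) hee.le r)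
            (mul_nonneg hC0 (hS0 N hN1 r))
      _ = C * (S N r * θ' ^ r) := by ring
  have hfin := hN₀ N (by omega)
  exact hstep.trans (mul_le_mul_of_nonneg_left hfin.le hC0)

end Pool.SW
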